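import Pool.Agent.P8H14.SS.S2

/-!
# The singular series of the truncated model (written by helper43)
-/

set_option autoImplicit false

namespace Pool.Agent.P8H14.SS

open Finset Filter Topology
open Pool.Agent.P8H13.PK

variable {k : ℕ}

/-! ### Sums over sparse sets -/

lemma step (N : ℕ) :
    ((N + 1 : ℕ) : ℝ) ^ (-(3/4) : ℝ) ≤ 4 * ((N + 1 : ℕ) : ℝ) ^ (1/4 : ℝ) - 4 * (N : ℝ) ^ (1/4 : ℝ) := by
  set a := (N : ℝ) ^ (1/4 : ℝ) with ha
  set b := ((N + 1 : ℕ) : ℝ) ^ (1/4 : ℝ) with hb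
  have hN : (0:ℝ) ≤ N := Nat.cast_nonneg N
  have hN1 : (0:ℝ) < ((N + 1 : ℕ) : ℝ) := by positivity
  have ha0 : 0 ≤ a := Real.rpow_nonneg hN _
  have hb0 : 0 < b := Real.rpow_pos_of_pos hN1 _
  have ha4 : a ^ 4 = N := by
    rw [ha, ← Real.rpow_natCast, ← Real.rpow_mul hN]
    norm_num
  have hb4 : b ^ 4 = N + 1 := by
    rw [hb, ← Real.rpow_natCast, ← Real.rpow_mul hN1.le]
    norm_num
  have hab : a ≤ b := by
    rw [ha, hb]
    apply Real.rpow_le_rpow hN _ (by norm_num)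
    push_cast
    linarith
  have hb3 : ((N + 1 : ℕ) : ℝ) ^ (-(3/4) : ℝ) = (b ^ 3)⁻¹ := by
    rw [hb, ← Real.rpow_natCast, ← Real.rpow_mul hN1.le, ← Real.rpow_neg hN1.le]
    norm_num
  rw [hb3, inv_le_iff_one_le_mul₀ (by positivity)]
  have h1 : 1 = (b - a) * (b ^ 3 + b ^ 2 * a + b * a ^ 2 + a ^ 3) := by
    linear_combination -hb4 + ha4
  have h2 : b ^ 3 + b ^ 2 * a + b * a ^ 2 + a ^ 3 ≤ 4 * b ^ 3 := by
    have e1 : b ^ 2 * a ≤ b ^ 2 * b := mul_le_mul_of_nonneg_left hab (by positivity)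
    have e2 : b * a ^ 2 ≤ b * b ^ 2 := mul_le_mul_of_nonneg_left (pow_le_pow_left₀ ha0 hab 2) hb0.le
    have e3 : a ^ 3 ≤ b ^ 3 := pow_le_pow_left₀ ha0 hab 3
    nlinarith
  have h3 : (b - a) * (b ^ 3 + b ^ 2 * a + b * a ^ 2 + a ^ 3) ≤ (b - a) * (4 * b ^ 3) :=
    mul_le_mul_of_nonneg_left h2 (by linarith)
  nlinarith

lemma sum_init (N : ℕ) : ∑ b ∈ range N, ((b + 1 : ℕ) : ℝ) ^ (-(3/4) : ℝ) ≤ 4 * (N : ℝ) ^ (1/4 : ℝ) := by
  induction N with
  | zero => simp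
  | succ N ih =>
    rw [sum_range_succ]
    have := step N
    linarith

lemma sum_sparse {B : Finset ℕ} (hB : ∀ b ∈ B, 1 ≤ b) {N : ℕ} (hN : 1 ≤ N) (hc : B.card ≤ N) :
    ∑ b ∈ B, (b : ℝ) ^ (-(3/4) : ℝ) ≤ 5 * (N : ℝ) ^ (1/4 : ℝ) := by
  have hN0 : (0:ℝ) < N := by exact_mod_cast hN
  rw [← sum_filter_add_sum_filter_not B (fun b => b ≤ N)]
  have h1 : ∑ b ∈ B.filter (fun b => b ≤ N), (b : ℝ) ^ (-(3/4) : ℝ) ≤ 4 * (N : ℝ) ^ (1/4 : ℝ) := by
    refine le_trans ?_ (sum_init N)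
    rw [← sum_image (s := range N) (g := fun b => b + 1) (f := fun b : ℕ => (b : ℝ) ^ (-(3/4) : ℝ))
      (fun a _ b _ h => by simpa using h)]
    refine sum_le_sum_of_subset_of_nonneg ?_ fun b _ _ => Real.rpow_nonneg (Nat.cast_nonneg b) _
    intro b hb
    rw [mem_filter] at hb
    rw [mem_image]
    have := hB b hb.1
    exact ⟨b - 1, by rw [mem_range]; omega, by omega⟩
  have h2 : ∑ b ∈ B.filter (fun b => ¬ b ≤ N), (b : ℝ) ^ (-(3/4) : ℝ) ≤ (N : ℝ) ^ (1/4 : ℝ) := by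
    have h3 : ∀ b ∈ B.filter (fun b => ¬ b ≤ N), (b : ℝ) ^ (-(3/4) : ℝ) ≤ (N : ℝ) ^ (-(3/4) : ℝ) := by
      intro b hb
      rw [mem_filter, not_le] at hb
      exact Real.rpow_le_rpow_of_nonpos hN0 (by exact_mod_cast hb.2.le) (by norm_num)
    refine (sum_le_card_nsmul _ _ _ h3).trans ?_
    rw [nsmul_eq_mul]
    have h4 : ((B.filter (fun b => ¬ b ≤ N)).card : ℝ) ≤ N := by
      exact_mod_cast (card_filter_le _ _).trans hc
    calc _ ≤ (N : ℝ) * (N : ℝ) ^ (-(3/4) : ℝ) :=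
          mul_le_mul_of_nonneg_right h4 (Real.rpow_nonneg hN0.le _)
      _ = (N : ℝ) ^ (1 + -(3/4) : ℝ) := by rw [Real.rpow_add hN0, Real.rpow_one]
      _ = _ := by norm_num
  linarith

/-! ### Bad primes -/

lemma card_pf_le {m : ℕ} (hm : m ≠ 0) {L : ℝ} (hL : (m : ℝ) ≤ Real.exp L) :
    (m.primeFactors.card : ℝ) ≤ 2 * L := by
  have h1 : 2 ^ m.primeFactors.card ≤ m := by
    refine le_trans ?_ (Nat.le_of_dvd (Nat.pos_of_ne_zero hm) (Nat.prod_primeFactors_dvd m))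
    rw [← prod_const]
    exact prod_le_prod' fun p hp => (Nat.prime_of_mem_primeFactors hp).two_le
  have h2 : (2:ℝ) ^ m.primeFactors.card ≤ Real.exp L := by
    refine le_trans ?_ hL
    exact_mod_cast h1
  have h3 : (m.primeFactors.card : ℝ) * Real.log 2 ≤ L := by
    have := Real.log_le_log (by positivity) h2
    rwa [Real.log_exp, Real.log_pow] at this
  have h4 : (1/2 : ℝ) ≤ Real.log 2 := by
    have := Real.log_two_gt_d9
    linarith
  have h5 : (0:ℝ) ≤ m.primeFactors.card := Nat.cast_nonneg _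
  nlinarith

open Classical in
/-- the bad primes -/
noncomputable def bad (h : Fin k → ℕ) (X : ℕ) : Finset ℕ := (PX X).filter fun p => ¬ Good h p

lemma card_badset {h : Fin k → ℕ} (hinj : Function.Injective h) {L : ℝ} (hL0 : 0 ≤ L)
    (hL : ∀ i, (h i : ℝ) ≤ Real.exp L) (X : ℕ) : ((bad h X).card : ℝ) ≤ 2 * k ^ 2 * L := by
  classical
  have h1 : bad h X ⊆ (univ : Finset (Fin k × Fin k)).biUnion
      (fun ij => ((h ij.1 - h ij.2) + (h ij.2 - h ij.1)).primeFactors) := by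
    intro p hp
    unfold bad at hp
    rw [mem_filter] at hp
    have hp' := (mem_PX.1 hp.1).2
    have h2 := hp.2
    unfold Good at h2
    push Not at h2
    obtain ⟨i, j, hij, hmod⟩ := h2
    have hne : h i ≠ h j := fun h3 => hij (hinj h3)
    rw [mem_biUnion]
    refine ⟨(i, j), mem_univ _, ?_⟩
    rw [Nat.mem_primeFactors]
    refine ⟨hp', ?_, by simp only; omega⟩
    simp only
    have hmod' : h i ≡ h j [MOD p] := hmod
    rcases Nat.lt_or_ge (h i) (h j) with hlt | hge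
    · have e : h i - h j + (h j - h i) = h j - h i := by omega
      rw [e]
      exact (Nat.modEq_iff_dvd' hlt.le).1 hmod'
    · have e : h i - h j + (h j - h i) = h i - h j := by omega
      rw [e]
      exact (Nat.modEq_iff_dvd' hge).1 hmod'.symm
  have h2 : ((bad h X).card : ℝ) ≤ ∑ ij : Fin k × Fin k,
      ((((h ij.1 - h ij.2) + (h ij.2 - h ij.1)).primeFactors.card : ℕ) : ℝ) := by
    have := (card_le_card h1).trans card_biUnion_le
    exact_mod_cast this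
  refine h2.trans ?_
  refine (sum_le_card_nsmul _ _ (2 * L) fun ij _ => ?_).trans (le_of_eq ?_)
  · rcases eq_or_ne ((h ij.1 - h ij.2) + (h ij.2 - h ij.1)) 0 with h0 | h0
    · rw [h0]
      simp only [Nat.primeFactors_zero, card_empty, Nat.cast_zero]
      linarith
    · refine card_pf_le h0 ?_
      have h3 : (h ij.1 - h ij.2) + (h ij.2 - h ij.1) ≤ max (h ij.1) (h ij.2) := by omega
      have h4 : (((h ij.1 - h ij.2) + (h ij.2 - h ij.1) : ℕ) : ℝ) ≤
          ((max (h ij.1) (h ij.2) : ℕ) : ℝ) := by exact_mod_cast h3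
      refine h4.trans ?_
      rw [Nat.cast_max]
      exact max_le (hL _) (hL _)
  · rw [card_univ, Fintype.card_prod, Fintype.card_fin, nsmul_eq_mul]
    push_cast
    ring

/-- the convergent sum -/
noncomputable def ZZ : ℝ := ∑' n : ℕ, (n : ℝ) ^ (-(7/4) : ℝ)

lemma ZZ_sum : Summable fun n : ℕ => (n : ℝ) ^ (-(7/4) : ℝ) := by
  rw [Real.summable_nat_rpow]
  norm_num

lemma ZZ_nonneg : 0 ≤ ZZ := tsum_nonneg fun n => Real.rpow_nonneg (Nat.cast_nonneg n) _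

lemma sum_ss {h : Fin k → ℕ} (hinj : Function.Injective h) {L : ℝ} (hL1 : 1 ≤ L)
    (hL : ∀ i, (h i : ℝ) ≤ Real.exp L) (X : ℕ) :
    ∑ p ∈ PX X, (p : ℝ) ^ (1/4 : ℝ) * ss h p ≤
      KK k * ZZ + KK k * (5 * ((2 * k ^ 2 + 2) * L ^ (1/4 : ℝ))) := by
  classical
  have hK := KK_pos k
  have h1 : ∀ p ∈ PX X, (p : ℝ) ^ (1/4 : ℝ) * ss h p ≤ KK k * (p : ℝ) ^ (-(7/4) : ℝ) +
      (if ¬ Good h p then KK k * (p : ℝ) ^ (-(3/4) : ℝ) else 0) := by
    intro p hp
    have hp' := (mem_PX.1 hp).2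
    have hp0 : (0:ℝ) < p := by exact_mod_cast hp'.pos
    have hr0 : 0 ≤ (p : ℝ) ^ (1/4 : ℝ) := Real.rpow_nonneg hp0.le _
    by_cases hg : Good h p
    · rw [if_neg (not_not.2 hg)]
      have h2 := mul_le_mul_of_nonneg_left (ss_le2 hp' hg) hr0
      have h3 : (p : ℝ) ^ (1/4 : ℝ) * (KK k / p ^ 2) = KK k * (p : ℝ) ^ (-(7/4) : ℝ) := by
        have : (p : ℝ) ^ (-(7/4) : ℝ) = (p : ℝ) ^ (1/4 : ℝ) / p ^ 2 := by
          rw [← Real.rpow_natCast, ← Real.rpow_sub hp0]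
          norm_num
        rw [this]
        ring
      linarith
    · rw [if_pos hg]
      have h2 := mul_le_mul_of_nonneg_left (ss_le1 (h := h) hp') hr0
      have h3 : (p : ℝ) ^ (1/4 : ℝ) * (KK k / p) = KK k * (p : ℝ) ^ (-(3/4) : ℝ) := by
        have : (p : ℝ) ^ (-(3/4) : ℝ) = (p : ℝ) ^ (1/4 : ℝ) / p := by
          rw [← Real.rpow_sub_one hp0.ne']
          norm_num
        rw [this]
        ring
      have h4 : 0 ≤ KK k * (p : ℝ) ^ (-(7/4) : ℝ) := mul_nonneg hK.le (Real.rpow_nonneg hp0.le _)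
      linarith
  refine (sum_le_sum h1).trans ?_
  rw [sum_add_distrib, ← mul_sum, ← sum_filter, ← mul_sum]
  refine add_le_add (mul_le_mul_of_nonneg_left ?_ hK.le) (mul_le_mul_of_nonneg_left ?_ hK.le)
  · exact ZZ_sum.sum_le_tsum _ fun n _ => Real.rpow_nonneg (Nat.cast_nonneg n) _
  · have hc := card_badset hinj (by linarith) hL X
    set N : ℕ := ⌈2 * (k:ℝ) ^ 2 * L⌉₊ + 1 with hN
    have hcN : (bad h X).card ≤ N := by
      have : ((bad h X).card : ℝ) ≤ (⌈2 * (k:ℝ) ^ 2 * L⌉₊ : ℝ) := hc.trans (Nat.le_ceil _)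
      have h2 : (bad h X).card ≤ ⌈2 * (k:ℝ) ^ 2 * L⌉₊ := by exact_mod_cast this
      omega
    have h3 := sum_sparse (B := bad h X) (fun b hb => by
      unfold bad at hb
      exact (mem_PX.1 (mem_filter.1 hb).1).2.one_le) (N := N) (by omega) hcN
    have h4 : (bad h X) = (PX X).filter fun p => ¬ Good h p := by
      unfold bad
      congr
    rw [← h4]
    refine h3.trans (mul_le_mul_of_nonneg_left ?_ (by norm_num))
    have hnn : 0 ≤ 2 * (k:ℝ) ^ 2 * L := by positivity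
    have h5 : (N : ℝ) ≤ (2 * k ^ 2 + 2) * L := by
      have h6 := (Nat.ceil_lt_add_one hnn).le
      rw [hN]
      push_cast
      nlinarith
    calc (N : ℝ) ^ (1/4 : ℝ) ≤ ((2 * k ^ 2 + 2) * L) ^ (1/4 : ℝ) :=
          Real.rpow_le_rpow (Nat.cast_nonneg N) h5 (by norm_num)
      _ = (2 * (k:ℝ) ^ 2 + 2) ^ (1/4 : ℝ) * L ^ (1/4 : ℝ) :=
          Real.mul_rpow (by positivity) (by linarith)
      _ ≤ (2 * k ^ 2 + 2) * L ^ (1/4 : ℝ) := by
          refine mul_le_mul_of_nonneg_right ?_ (Real.rpow_nonneg (by linarith) _)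
          have h7 : (1:ℝ) ≤ 2 * (k:ℝ) ^ 2 + 2 := by nlinarith [sq_nonneg (k:ℝ)]
          calc (2 * (k:ℝ) ^ 2 + 2) ^ (1/4 : ℝ) ≤ (2 * (k:ℝ) ^ 2 + 2) ^ (1 : ℝ) :=
                Real.rpow_le_rpow_of_exponent_le h7 (by norm_num)
            _ = _ := Real.rpow_one _

/-! ### The infinite product -/

/-- the singular series -/
noncomputable def SG {k : ℕ} (h : Fin k → ℕ) : ℝ :=
  ∏' p : Nat.Primes, (((1 - 1 / ((p : ℕ) : ℝ)) ^ k)⁻¹ *
    (1 - ((Finset.univ.image (fun i : Fin k => h i % (p : ℕ))).card : ℝ) / ((p : ℕ) : ℝ)))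

lemma bet_sub_one {h : Fin k → ℕ} {p : ℕ} (hp : p.Prime) : |bet h p - 1| ≤ ss h p := by
  rw [← sum_mm hp, ← add_sum_erase _ _ (mem_univ (∅ : Finset (Fin k))), mm_empty hp,
    add_sub_cancel_left]
  exact abs_sum_le_sum_abs _ _

lemma bet_multipliable {h : Fin k → ℕ} (hinj : Function.Injective h) :
    Multipliable fun p : Nat.Primes => bet h p := by
  have h1 : Summable fun p : Nat.Primes => (bet h p - 1) := by
    have hs : Summable fun p : Nat.Primes => KK k / ((p : ℕ) : ℝ) ^ 2 := by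
      have h2 : Summable fun n : ℕ => KK k / (n : ℝ) ^ 2 := by
        have := (Real.summable_one_div_nat_pow.2 (by norm_num : 1 < 2)).mul_left (KK k)
        refine this.congr fun n => ?_
        ring
      exact h2.comp_injective Subtype.val_injective
    refine Summable.of_norm_bounded_eventually hs ?_
    rw [Filter.eventually_cofinite]
    refine Set.Finite.subset ((Set.finite_le_nat (∑ i, h i)).preimage
      (Subtype.val_injective.injOn (s := _))) ?_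
    intro p hp
    have hp2 : ¬ ‖bet h (p : ℕ) - 1‖ ≤ KK k / ((p : ℕ) : ℝ) ^ 2 := hp
    show (p : ℕ) ≤ ∑ i, h i
    by_contra hcon
    push Not at hcon
    apply hp2
    rw [Real.norm_eq_abs]
    refine (bet_sub_one p.2).trans (ss_le2 p.2 ?_)
    intro i j hij hmod
    have hi : ∀ i, h i < p := fun i =>
      lt_of_le_of_lt (single_le_sum (f := h) (fun _ _ => Nat.zero_le _) (mem_univ i)) hcon
    rw [Nat.mod_eq_of_lt (hi i), Nat.mod_eq_of_lt (hi j)] at hmod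
    exact hij (hinj hmod)
  have h2 := Real.multipliable_one_add_of_summable h1
  refine h2.congr fun p => ?_
  ring

lemma tendsto_SG {h : Fin k → ℕ} (hinj : Function.Injective h) :
    Tendsto (fun X => ∏ p ∈ PX X, bet h p) atTop (𝓝 (SG h)) := by
  have h1 : HasProd (fun p : Nat.Primes => bet h p) (SG h) := (bet_multipliable hinj).hasProd
  have h2 : Tendsto (fun X : ℕ => Finset.subtype Nat.Prime (range (X + 1))) atTop atTop := by
    refine tendsto_atTop_finset_of_monotone ?_ ?_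
    · intro X Y hXY
      exact Finset.subtype_mono (range_mono (by omega))
    · intro p
      refine ⟨p.1, ?_⟩
      rw [Finset.mem_subtype, mem_range]
      omega
  have h3 := h1.comp h2
  refine h3.congr fun X => ?_
  unfold PX
  exact prod_subtype_eq_prod_filter (s := range (X + 1)) (p := Nat.Prime) (fun p => bet h p)

/-- **the correlations of the truncated models** -/
theorem mo_HL (k : ℕ) : ∃ C : ℝ, 0 < C ∧ ∀ (h Q : Fin k → ℕ) (q L : ℝ), Function.Injective h →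
    1 ≤ L → 1 ≤ q → (∀ i, q ≤ Q i) → (∀ i, (h i : ℝ) ≤ Real.exp L) → ∀ n : ℕ,
    |∑ t ∈ Finset.range n, ∏ i, mo 1 (Q i) 0 (t + h i) - SG h * n| ≤
      n * (Real.exp (C * L ^ (1/4 : ℝ)) * q ^ (-(1/4) : ℝ)) + 2 * ∏ i, (Q i : ℝ) ^ 2 := by
  have hK := KK_pos k
  have hZ := ZZ_nonneg
  refine ⟨k + (KK k * ZZ + KK k * (5 * (2 * k ^ 2 + 2))), by positivity, ?_⟩
  intro h Q q L hinj hL1 hq hQ hL n
  have hL0 : 1 ≤ L ^ (1/4 : ℝ) := Real.one_le_rpow hL1 (by norm_num)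
  have hq0 : 0 ≤ q ^ (-(1/4) : ℝ) := Real.rpow_nonneg (by linarith) _
  -- the bound for every `X`
  have key : ∀ X, (∑ i, Q i) ≤ X →
      |∑ t ∈ Finset.range n, ∏ i, mo 1 (Q i) 0 (t + h i) - n * ∏ p ∈ PX X, bet h p| ≤
      n * (Real.exp ((k + (KK k * ZZ + KK k * (5 * (2 * k ^ 2 + 2)))) * L ^ (1/4 : ℝ)) *
        q ^ (-(1/4) : ℝ)) + 2 * ∏ i, (Q i : ℝ) ^ 2 := by
    intro X hX
    have hXi : ∀ i, Q i ≤ X := fun i =>
      (single_le_sum (f := Q) (fun _ _ => Nat.zero_le _) (mem_univ i)).trans hX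
    have h1 := expand (h := h) hXi n
    have h2 := rankin (h := h) (X := X) hq hQ
    have h3 : ∏ p ∈ PX X, ∑ I : Finset (Fin k), mm h p I = ∏ p ∈ PX X, bet h p :=
      prod_congr rfl fun p hp => sum_mm (mem_PX.1 hp).2
    rw [h3] at h2
    have h4 : ∏ p ∈ PX X, (1 + (p : ℝ) ^ (1/4 : ℝ) * ss h p) ≤
        Real.exp (KK k * ZZ + KK k * (5 * ((2 * k ^ 2 + 2) * L ^ (1/4 : ℝ)))) := by
      calc ∏ p ∈ PX X, (1 + (p : ℝ) ^ (1/4 : ℝ) * ss h p) ≤
          ∏ p ∈ PX X, Real.exp ((p : ℝ) ^ (1/4 : ℝ) * ss h p) := by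
            refine prod_le_prod (fun p _ => ?_) fun p _ => ?_
            · have := mul_nonneg (Real.rpow_nonneg (Nat.cast_nonneg p) (1/4 : ℝ)) (ss_nonneg h p)
              linarith
            · have := Real.add_one_le_exp ((p : ℝ) ^ (1/4 : ℝ) * ss h p)
              linarith
        _ = Real.exp (∑ p ∈ PX X, (p : ℝ) ^ (1/4 : ℝ) * ss h p) := (Real.exp_sum _ _).symm
        _ ≤ _ := Real.exp_le_exp.2 (sum_ss hinj hL1 hL X)
    have h5 : (k : ℝ) ≤ Real.exp k := by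
      have := Real.add_one_le_exp (k : ℝ)
      linarith
    have h6 : (k : ℝ) * q ^ (-(1/4) : ℝ) * ∏ p ∈ PX X, (1 + (p : ℝ) ^ (1/4 : ℝ) * ss h p) ≤
        Real.exp ((k + (KK k * ZZ + KK k * (5 * (2 * k ^ 2 + 2)))) * L ^ (1/4 : ℝ)) *
        q ^ (-(1/4) : ℝ) := by
      have h7 : Real.exp k * Real.exp (KK k * ZZ + KK k * (5 * ((2 * k ^ 2 + 2) * L ^ (1/4 : ℝ)))) ≤
          Real.exp ((k + (KK k * ZZ + KK k * (5 * (2 * k ^ 2 + 2)))) * L ^ (1/4 : ℝ)) := by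
        rw [← Real.exp_add]
        apply Real.exp_le_exp.2
        have e1 : (k : ℝ) ≤ k * L ^ (1/4 : ℝ) := le_mul_of_one_le_right (Nat.cast_nonneg k) hL0
        have e2 : KK k * ZZ ≤ KK k * ZZ * L ^ (1/4 : ℝ) :=
          le_mul_of_one_le_right (mul_nonneg hK.le hZ) hL0
        nlinarith
      calc (k : ℝ) * q ^ (-(1/4) : ℝ) * ∏ p ∈ PX X, (1 + (p : ℝ) ^ (1/4 : ℝ) * ss h p)
          ≤ (Real.exp k * q ^ (-(1/4) : ℝ)) *
            Real.exp (KK k * ZZ + KK k * (5 * ((2 * k ^ 2 + 2) * L ^ (1/4 : ℝ)))) := by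
            refine mul_le_mul (mul_le_mul_of_nonneg_right h5 hq0) h4 (prod_nonneg fun p _ => ?_)
              (by positivity)
            have := mul_nonneg (Real.rpow_nonneg (Nat.cast_nonneg p) (1/4 : ℝ)) (ss_nonneg h p)
            linarith
        _ = (Real.exp k * Real.exp (KK k * ZZ + KK k * (5 * ((2 * k ^ 2 + 2) * L ^ (1/4 : ℝ))))) *
            q ^ (-(1/4) : ℝ) := by ring
        _ ≤ _ := mul_le_mul_of_nonneg_right h7 hq0
    have h8 := (h2.trans h6)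
    set T := ∑ A ∈ Fintype.piFinset (fun i => TQ X (Q i)), ∏ p ∈ PX X, mm h p (IA A p) with hT
    have h9 : |(n : ℝ) * T - n * ∏ p ∈ PX X, bet h p| ≤
        n * (Real.exp ((k + (KK k * ZZ + KK k * (5 * (2 * k ^ 2 + 2)))) * L ^ (1/4 : ℝ)) *
        q ^ (-(1/4) : ℝ)) := by
      rw [← mul_sub, abs_mul, abs_of_nonneg (Nat.cast_nonneg n : (0:ℝ) ≤ n)]
      exact mul_le_mul_of_nonneg_left h8 (Nat.cast_nonneg n)
    have h10 := abs_sub_le (∑ t ∈ Finset.range n, ∏ i, mo 1 (Q i) 0 (t + h i)) (n * T)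
      (n * ∏ p ∈ PX X, bet h p)
    linarith
  have hlim : Tendsto (fun X : ℕ => |∑ t ∈ Finset.range n, ∏ i, mo 1 (Q i) 0 (t + h i) -
      n * ∏ p ∈ PX X, bet h p|) atTop
      (𝓝 |∑ t ∈ Finset.range n, ∏ i, mo 1 (Q i) 0 (t + h i) - n * SG h|) :=
    (((tendsto_SG hinj).const_mul (n : ℝ)).const_sub _).abs
  rw [mul_comm (SG h)]
  refine le_of_tendsto hlim ?_
  filter_upwards [eventually_ge_atTop (∑ i, Q i)] with X hX
  exact key X hX

end Pool.Agent.P8H14.SS
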