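import Pool.Agent.P8H13.PK.Model

/-!
# The singular series of the truncated model: combinatorial part (written by helper43)
-/

set_option autoImplicit false

namespace Pool.Agent.P8H14.SS

open Finset
open Pool.Agent.P8H13.PK

/-- the primes up to `X` -/
def PX (X : ℕ) : Finset ℕ := (range (X + 1)).filter Nat.Prime

lemma mem_PX {X p : ℕ} : p ∈ PX X ↔ p ≤ X ∧ p.Prime := by
  unfold PX
  rw [mem_filter, mem_range]
  constructor
  · rintro ⟨h1, h2⟩; exact ⟨by omega, h2⟩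
  · rintro ⟨h1, h2⟩; exact ⟨by omega, h2⟩

/-- the sets of primes with product at most `Q` -/
def TQ (X Q : ℕ) : Finset (Finset ℕ) := (PX X).powerset.filter (fun T => ∏ p ∈ T, p ≤ Q)

lemma sum_RQ {X Q : ℕ} (hQ : Q ≤ X) (F : Finset ℕ → ℝ) :
    ∑ r ∈ RQ 1 Q, F r.primeFactors = ∑ T ∈ TQ X Q, F T := by
  refine sum_bij' (fun r _ => r.primeFactors) (fun T _ => ∏ p ∈ T, p) ?_ ?_ ?_ ?_ ?_
  · intro r hr
    rw [mem_RQ] at hr
    unfold TQ
    rw [mem_filter, mem_powerset, Nat.prod_primeFactors_of_squarefree hr.2.1]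
    refine ⟨fun p hp => ?_, hr.1.2⟩
    rw [mem_PX]
    exact ⟨(Nat.le_of_dvd hr.1.1 (Nat.dvd_of_mem_primeFactors hp)).trans (hr.1.2.trans hQ),
      Nat.prime_of_mem_primeFactors hp⟩
  · intro T hT
    unfold TQ at hT
    rw [mem_filter, mem_powerset] at hT
    have hT' : ∀ p ∈ T, p.Prime := fun p hp => (mem_PX.1 (hT.1 hp)).2
    rw [mem_RQ]
    refine ⟨⟨Nat.one_le_iff_ne_zero.mpr (prod_ne_zero_iff.mpr fun p hp => (hT' p hp).ne_zero), hT.2⟩,
      ?_, Nat.coprime_one_right _⟩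
    exact squarefree_prod_of_pairwise_isCoprime
          (fun p hp q hq hpq => Nat.coprime_iff_isRelPrime.mp
            ((Nat.coprime_primes (hT' p hp) (hT' q hq)).mpr hpq))
          (fun p hp => (hT' p hp).squarefree)
  · intro r hr
    rw [mem_RQ] at hr
    exact Nat.prod_primeFactors_of_squarefree hr.2.1
  · intro T hT
    unfold TQ at hT
    rw [mem_filter, mem_powerset] at hT
    exact Nat.primeFactors_prod fun p hp => (mem_PX.1 (hT.1 hp)).2
  · intro r _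
    rfl

lemma card_TQ {X Q : ℕ} (hQ : Q ≤ X) : (TQ X Q).card ≤ Q := by
  have h := sum_RQ hQ (fun _ => 1)
  rw [sum_const, sum_const] at h
  simp only [nsmul_eq_mul, mul_one, Nat.cast_inj] at h
  rw [← h]
  exact card_RQ 1 Q

lemma mo_eq {X Q : ℕ} (hQ : Q ≤ X) (t : ℕ) :
    mo 1 Q 0 t = ∑ T ∈ TQ X Q, ∏ p ∈ T, lf p t := by
  unfold mo hr
  simp only [zero_add, one_mul]
  exact sum_RQ hQ (fun T => ∏ p ∈ T, lf p t)

variable {k : ℕ}

/-- the indices that contain `p` -/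
def IA (A : Fin k → Finset ℕ) (p : ℕ) : Finset (Fin k) := univ.filter fun i => p ∈ A i

lemma mem_IA {A : Fin k → Finset ℕ} {p : ℕ} {i : Fin k} : i ∈ IA A p ↔ p ∈ A i := by
  unfold IA
  simp

/-- interchanging the products -/
lemma prod_flip {P : Finset ℕ} {A : Fin k → Finset ℕ} (hA : ∀ i, A i ⊆ P) (F : Fin k → ℕ → ℝ) :
    ∏ i, ∏ p ∈ A i, F i p = ∏ p ∈ P, ∏ i ∈ IA A p, F i p := by
  have h1 : ∀ i, ∏ p ∈ A i, F i p = ∏ p ∈ P, (if p ∈ A i then F i p else 1) := by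
    intro i
    rw [prod_ite_mem, inter_eq_right.2 (hA i)]
  simp_rw [h1]
  rw [prod_comm]
  refine prod_congr rfl fun p _ => ?_
  unfold IA
  rw [prod_filter]

/-- factorisation of the complete sum -/
lemma sum_flip (P : Finset ℕ) (G : ℕ → Finset (Fin k) → ℝ) :
    ∑ A ∈ Fintype.piFinset (fun _ : Fin k => P.powerset), ∏ p ∈ P, G p (IA A p) =
      ∏ p ∈ P, ∑ I : Finset (Fin k), G p I := by
  rw [← prod_coe_sort P (fun p => ∑ I : Finset (Fin k), G p I), prod_univ_sum,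
    Fintype.piFinset_univ]
  refine sum_bij' (fun A _ => fun p : P => IA A p)
    (fun φ _ => fun i => (univ.filter fun p : P => i ∈ φ p).map (Function.Embedding.subtype _))
    ?_ ?_ ?_ ?_ ?_
  · intro A _
    exact mem_univ _
  · intro φ _
    rw [Fintype.mem_piFinset]
    intro i
    rw [mem_powerset]
    intro p hp
    rw [mem_map] at hp
    obtain ⟨q, _, rfl⟩ := hp
    exact q.2
  · intro A hA
    rw [Fintype.mem_piFinset] at hA
    ext i p
    simp only [mem_map, mem_filter, mem_univ, true_and, Function.Embedding.subtype_apply,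
      Subtype.exists, mem_IA]
    constructor
    · rintro ⟨q, _, hq, rfl⟩
      exact hq
    · intro hp
      exact ⟨p, (mem_powerset.1 (hA i)) hp, hp, rfl⟩
  · intro φ _
    ext p i
    simp only [mem_IA, mem_map, mem_filter, mem_univ, true_and, Function.Embedding.subtype_apply,
      Subtype.exists]
    constructor
    · rintro ⟨q, hq, h1, h2⟩
      have : (⟨q, hq⟩ : P) = p := Subtype.ext h2
      rwa [this] at h1
    · intro hi
      exact ⟨p.1, p.2, hi, rfl⟩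
  · intro A _
    exact (prod_coe_sort P (fun p => G p (IA A p))).symm

/-- the local factors -/
noncomputable def gg (h : Fin k → ℕ) (p : ℕ) (I : Finset (Fin k)) (t : ℕ) : ℝ :=
  ∏ i ∈ I, lf p (t + h i)

/-- their means -/
noncomputable def mm (h : Fin k → ℕ) (p : ℕ) (I : Finset (Fin k)) : ℝ :=
  (∑ t ∈ range p, gg h p I t) / p

lemma gg_abs {h : Fin k → ℕ} {p : ℕ} (hp : p.Prime) (I : Finset (Fin k)) (t : ℕ) :
    |gg h p I t| ≤ 1 := by
  unfold gg
  rw [abs_prod]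
  exact prod_le_one (fun _ _ => abs_nonneg _) (fun i _ => abs_lf_le hp _)

lemma gg_per {h : Fin k → ℕ} {p : ℕ} (I : Finset (Fin k)) (t : ℕ) :
    gg h p I (t + p) = gg h p I t := by
  unfold gg
  refine prod_congr rfl fun i _ => ?_
  rw [show t + p + h i = t + h i + p * 1 by ring]
  exact lf_add _ _

lemma mm_empty {h : Fin k → ℕ} {p : ℕ} (hp : p.Prime) : mm h p ∅ = 1 := by
  unfold mm gg
  have : (p : ℝ) ≠ 0 := by exact_mod_cast hp.ne_zero
  simp [this]

/-- one term -/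
lemma one_term {h : Fin k → ℕ} {X : ℕ} {A : Fin k → Finset ℕ} (hA : ∀ i, A i ⊆ PX X)
    {Q : Fin k → ℕ} (hQ : ∀ i, ∏ p ∈ A i, p ≤ Q i) (n : ℕ) :
    |∑ t ∈ range n, ∏ i, ∏ p ∈ A i, lf p (t + h i) - n * ∏ p ∈ PX X, mm h p (IA A p)| ≤
      2 * ∏ i, (Q i : ℝ) := by
  set S := (PX X).filter (fun p => (IA A p).Nonempty) with hS
  have hSp : ∀ p ∈ S, p.Prime := fun p hp => (mem_PX.1 (mem_filter.1 hp).1).2
  have h1 := per_prod_inc (S := S) hSp (f := fun p t => gg h p (IA A p) t)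
    (fun p _ t => gg_per _ t) (fun p hp t => gg_abs (hSp p hp) _ t) n
  have hne : ∀ p ∈ PX X, p ∉ S → IA A p = ∅ := by
    intro p hp hpS
    rw [hS, mem_filter, not_and] at hpS
    exact not_nonempty_iff_eq_empty.1 (hpS hp)
  have h2 : ∀ t, ∏ i, ∏ p ∈ A i, lf p (t + h i) = ∏ p ∈ S, gg h p (IA A p) t := by
    intro t
    rw [prod_flip hA (fun i p => lf p (t + h i))]
    refine (prod_subset (filter_subset _ _) fun p hp hpS => ?_).symm
    rw [hne p hp hpS]
    rfl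
  have h3 : ∏ p ∈ PX X, mm h p (IA A p) = ∏ p ∈ S, mm h p (IA A p) := by
    refine (prod_subset (filter_subset _ _) fun p hp hpS => ?_).symm
    rw [hne p hp hpS, mm_empty (mem_PX.1 hp).2]
  rw [h3]
  simp_rw [h2]
  refine h1.trans ?_
  refine mul_le_mul_of_nonneg_left ?_ (by norm_num)
  have h4 : ∏ p ∈ S, (p : ℝ) ≤ ∏ p ∈ S, ∏ i ∈ IA A p, (p : ℝ) := by
    refine prod_le_prod (fun p _ => Nat.cast_nonneg p) fun p hp => ?_
    rw [prod_const]
    have h5 : 1 ≤ (IA A p).card := card_pos.2 (mem_filter.1 hp).2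
    have h6 : (1 : ℝ) ≤ p := by exact_mod_cast (hSp p hp).one_le
    calc (p : ℝ) = (p : ℝ) ^ 1 := (pow_one _).symm
      _ ≤ _ := pow_le_pow_right₀ h6 h5
  refine h4.trans ?_
  have h5 : ∏ p ∈ S, ∏ i ∈ IA A p, (p : ℝ) = ∏ i, ∏ p ∈ A i, (p : ℝ) := by
    rw [prod_flip hA (fun _ p => (p : ℝ))]
    refine prod_subset (filter_subset _ _) fun p hp hpS => ?_
    rw [hne p hp hpS, prod_empty]
  rw [h5]
  refine prod_le_prod (fun i _ => prod_nonneg fun p _ => Nat.cast_nonneg p) fun i _ => ?_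
  have h6 : ((∏ p ∈ A i, p : ℕ) : ℝ) ≤ (Q i : ℝ) := by exact_mod_cast hQ i
  push_cast at h6
  exact h6

/-- the sum of the products of the models -/
lemma expand {h : Fin k → ℕ} {X : ℕ} {Q : Fin k → ℕ} (hX : ∀ i, Q i ≤ X) (n : ℕ) :
    |∑ t ∈ range n, ∏ i, mo 1 (Q i) 0 (t + h i) -
      n * ∑ A ∈ Fintype.piFinset (fun i => TQ X (Q i)), ∏ p ∈ PX X, mm h p (IA A p)| ≤
      2 * ∏ i, (Q i : ℝ) ^ 2 := by
  have h1 : ∀ t, ∏ i, mo 1 (Q i) 0 (t + h i) =
      ∑ A ∈ Fintype.piFinset (fun i => TQ X (Q i)), ∏ i, ∏ p ∈ A i, lf p (t + h i) := by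
    intro t
    rw [← prod_univ_sum (fun i => TQ X (Q i)) (fun i T => ∏ p ∈ T, lf p (t + h i))]
    exact prod_congr rfl fun i _ => mo_eq (hX i) _
  simp_rw [h1]
  rw [sum_comm, mul_sum, ← sum_sub_distrib]
  refine (abs_sum_le_sum_abs _ _).trans ?_
  have h2 : ∀ A ∈ Fintype.piFinset (fun i => TQ X (Q i)),
      |∑ t ∈ range n, ∏ i, ∏ p ∈ A i, lf p (t + h i) - n * ∏ p ∈ PX X, mm h p (IA A p)| ≤
      2 * ∏ i, (Q i : ℝ) := by
    intro A hA
    rw [Fintype.mem_piFinset] at hA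
    refine one_term (fun i => ?_) (fun i => ?_) n
    · exact mem_powerset.1 (mem_filter.1 (hA i)).1
    · exact (mem_filter.1 (hA i)).2
  refine (sum_le_sum h2).trans ?_
  rw [sum_const, nsmul_eq_mul]
  have h3 : ((Fintype.piFinset (fun i => TQ X (Q i))).card : ℝ) ≤ ∏ i, (Q i : ℝ) := by
    rw [Fintype.card_piFinset]
    push_cast
    refine prod_le_prod (fun i _ => Nat.cast_nonneg _) fun i _ => ?_
    exact_mod_cast card_TQ (hX i)
  have h4 : (0:ℝ) ≤ ∏ i, (Q i : ℝ) := prod_nonneg fun i _ => Nat.cast_nonneg _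
  calc _ ≤ (∏ i, (Q i : ℝ)) * (2 * ∏ i, (Q i : ℝ)) :=
        mul_le_mul_of_nonneg_right h3 (by positivity)
    _ = 2 * ∏ i, (Q i : ℝ) ^ 2 := by
        rw [prod_pow]
        ring

/-- the sum of the absolute values of the nontrivial means -/
noncomputable def ss (h : Fin k → ℕ) (p : ℕ) : ℝ := ∑ I ∈ univ.erase ∅, |mm h p I|

lemma ss_nonneg (h : Fin k → ℕ) (p : ℕ) : 0 ≤ ss h p := sum_nonneg fun _ _ => abs_nonneg _

/-- Rankin's trick -/
lemma rankin {h : Fin k → ℕ} {X : ℕ} {Q : Fin k → ℕ} {q : ℝ} (hq : 1 ≤ q) (hQ : ∀ i, q ≤ Q i) :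
    |∑ A ∈ Fintype.piFinset (fun i => TQ X (Q i)), ∏ p ∈ PX X, mm h p (IA A p) -
      ∏ p ∈ PX X, ∑ I : Finset (Fin k), mm h p I| ≤
      k * q ^ (-(1/4) : ℝ) * ∏ p ∈ PX X, (1 + (p : ℝ) ^ (1/4 : ℝ) * ss h p) := by
  have hq0 : 0 < q := by linarith
  have hsub : Fintype.piFinset (fun i => TQ X (Q i)) ⊆
      Fintype.piFinset (fun _ : Fin k => (PX X).powerset) :=
    Fintype.piFinset_subset _ _ fun i => filter_subset _ _
  rw [← sum_flip, ← sum_sdiff hsub, abs_sub_comm, add_sub_cancel_right]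
  refine (abs_sum_le_sum_abs _ _).trans ?_
  have h1 : ∀ A ∈ Fintype.piFinset (fun _ : Fin k => (PX X).powerset) \
      Fintype.piFinset (fun i => TQ X (Q i)),
      |∏ p ∈ PX X, mm h p (IA A p)| ≤
      ∑ i, q ^ (-(1/4) : ℝ) * ∏ p ∈ PX X, ((if i ∈ IA A p then (p : ℝ) ^ (1/4 : ℝ) else 1) *
        |mm h p (IA A p)|) := by
    intro A hA
    rw [mem_sdiff, Fintype.mem_piFinset, Fintype.mem_piFinset, not_forall] at hA
    obtain ⟨hA1, i, hi⟩ := hA
    have hi2 : Q i < ∏ p ∈ A i, p := by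
      by_contra hcon
      apply hi
      unfold TQ
      rw [mem_filter]
      exact ⟨hA1 i, not_lt.1 hcon⟩
    have h2 : 1 ≤ q ^ (-(1/4) : ℝ) * ∏ p ∈ PX X, (if i ∈ IA A p then (p : ℝ) ^ (1/4 : ℝ) else 1) := by
      have e1 : ∏ p ∈ PX X, (if i ∈ IA A p then (p : ℝ) ^ (1/4 : ℝ) else 1) =
          (∏ p ∈ A i, (p : ℝ)) ^ (1/4 : ℝ) := by
        rw [← Real.finsetProd_rpow _ _ (fun p _ => Nat.cast_nonneg p)]
        have e2 : ∀ p ∈ PX X, (if i ∈ IA A p then (p : ℝ) ^ (1/4 : ℝ) else 1) =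
            if p ∈ A i then (p : ℝ) ^ (1/4 : ℝ) else 1 := by
          intro p _
          simp only [mem_IA]
        rw [prod_congr rfl e2, prod_ite_mem, inter_eq_right.2 (mem_powerset.1 (hA1 i))]
      rw [e1, Real.rpow_neg hq0.le, inv_mul_eq_div, one_le_div (Real.rpow_pos_of_pos hq0 _)]
      refine Real.rpow_le_rpow hq0.le ?_ (by norm_num)
      refine (hQ i).trans ?_
      have : ((Q i : ℕ) : ℝ) ≤ ((∏ p ∈ A i, p : ℕ) : ℝ) := by exact_mod_cast hi2.le
      push_cast at this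
      exact this
    have hnn : ∀ j : Fin k, 0 ≤ q ^ (-(1/4) : ℝ) * ∏ p ∈ PX X,
        ((if j ∈ IA A p then (p : ℝ) ^ (1/4 : ℝ) else 1) * |mm h p (IA A p)|) := by
      intro j
      refine mul_nonneg (Real.rpow_nonneg hq0.le _) (prod_nonneg fun p _ => ?_)
      refine mul_nonneg ?_ (abs_nonneg _)
      split_ifs
      · positivity
      · norm_num
    refine le_trans ?_ (single_le_sum (f := fun j : Fin k => q ^ (-(1/4) : ℝ) * ∏ p ∈ PX X,
        ((if j ∈ IA A p then (p : ℝ) ^ (1/4 : ℝ) else 1) * |mm h p (IA A p)|))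
        (fun j _ => hnn j) (mem_univ i))
    rw [prod_mul_distrib, ← mul_assoc, abs_prod]
    exact le_mul_of_one_le_left (prod_nonneg fun _ _ => abs_nonneg _) h2
  refine (sum_le_sum h1).trans ?_
  refine (sum_le_sum_of_subset_of_nonneg sdiff_subset fun A _ _ => ?_).trans ?_
  · refine sum_nonneg fun i _ => mul_nonneg (Real.rpow_nonneg hq0.le _) (prod_nonneg fun p _ => ?_)
    refine mul_nonneg ?_ (abs_nonneg _)
    split_ifs
    · positivity
    · norm_num
  rw [sum_comm]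
  have h2 : ∀ i : Fin k, ∑ A ∈ Fintype.piFinset (fun _ : Fin k => (PX X).powerset),
      q ^ (-(1/4) : ℝ) * ∏ p ∈ PX X, ((if i ∈ IA A p then (p : ℝ) ^ (1/4 : ℝ) else 1) *
        |mm h p (IA A p)|) ≤
      q ^ (-(1/4) : ℝ) * ∏ p ∈ PX X, (1 + (p : ℝ) ^ (1/4 : ℝ) * ss h p) := by
    intro i
    rw [← mul_sum, sum_flip (PX X) (fun p I => (if i ∈ I then (p : ℝ) ^ (1/4 : ℝ) else 1) *
      |mm h p I|)]
    refine mul_le_mul_of_nonneg_left ?_ (Real.rpow_nonneg hq0.le _)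
    refine prod_le_prod (fun p _ => sum_nonneg fun I _ => ?_) fun p hp => ?_
    · refine mul_nonneg ?_ (abs_nonneg _)
      split_ifs
      · positivity
      · norm_num
    · have hp' := (mem_PX.1 hp).2
      have hp1 : (1:ℝ) ≤ (p : ℝ) ^ (1/4 : ℝ) :=
        Real.one_le_rpow (by exact_mod_cast hp'.one_le) (by norm_num)
      rw [← add_sum_erase _ _ (mem_univ (∅ : Finset (Fin k))), mm_empty hp']
      unfold ss
      rw [mul_sum]
      refine add_le_add (by simp) (sum_le_sum fun I _ => ?_)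
      refine mul_le_mul_of_nonneg_right ?_ (abs_nonneg _)
      split_ifs
      · exact le_rfl
      · exact hp1
  refine (sum_le_sum fun i _ => h2 i).trans (le_of_eq ?_)
  rw [sum_const, card_univ, Fintype.card_fin, nsmul_eq_mul]
  ring

end Pool.Agent.P8H14.SS
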