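import Pool.Agent.P8H14.SS.S1

/-!
# The singular series of the truncated model: local part (written by helper43)
-/

set_option autoImplicit false

namespace Pool.Agent.P8H14.SS

open Finset
open Pool.Agent.P8H13.PK

variable {k : ℕ}

lemma filter_one {p : ℕ} (hp : p.Prime) (c : ℕ) :
    ((range p).filter fun t => p ∣ t + c).card = 1 := by
  obtain ⟨b0, hb0, hiff⟩ := dvd_unique (D := 1) hp (by
    intro h
    exact hp.one_lt.ne' (Nat.dvd_one.mp h)) c
  rw [card_eq_one]
  refine ⟨b0, ?_⟩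
  ext t
  rw [mem_filter, mem_singleton]
  constructor
  · rintro ⟨h1, h2⟩
    rw [← hiff t h1, one_mul, add_comm]
    exact h2
  · rintro rfl
    refine ⟨hb0, ?_⟩
    have := (hiff t hb0).2 rfl
    rwa [one_mul, add_comm] at this

/-- the number of factors that are divisible by `p` -/
def cnt (h : Fin k → ℕ) (p : ℕ) (I : Finset (Fin k)) (t : ℕ) : ℕ :=
  (I.filter fun i => p ∣ t + h i).card

lemma sum_cnt {h : Fin k → ℕ} {p : ℕ} (hp : p.Prime) (I : Finset (Fin k)) :
    ∑ t ∈ range p, (cnt h p I t : ℝ) = I.card := by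
  have h1 : ∀ t, (cnt h p I t : ℝ) = ∑ i ∈ I, if p ∣ t + h i then (1:ℝ) else 0 := by
    intro t
    unfold cnt
    rw [card_filter]
    push_cast
    rfl
  simp_rw [h1]
  rw [sum_comm]
  have h2 : ∀ i ∈ I, ∑ t ∈ range p, (if p ∣ t + h i then (1:ℝ) else 0) = 1 := by
    intro i _
    rw [← sum_filter, sum_const, filter_one hp]
    simp
  rw [sum_congr rfl h2, sum_const]
  simp

lemma abs_gg {h : Fin k → ℕ} {p : ℕ} (hp : p.Prime) (I : Finset (Fin k)) (t : ℕ) :
    |gg h p I t| = (1 / ((p : ℝ) - 1)) ^ (I.card - cnt h p I t) := by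
  have h2 : (2 : ℝ) ≤ p := by exact_mod_cast hp.two_le
  have h3 : 0 ≤ 1 / ((p : ℝ) - 1) := by apply div_nonneg <;> linarith
  unfold gg
  rw [abs_prod]
  have h4 : ∀ i ∈ I, |lf p (t + h i)| = if p ∣ t + h i then 1 else 1 / ((p : ℝ) - 1) := by
    intro i _
    unfold lf
    split_ifs
    · simp
    · rw [abs_of_nonneg h3]
  rw [prod_congr rfl h4, prod_ite, prod_const_one, one_mul, prod_const]
  congr 1
  have h5 := card_filter_add_card_filter_not (s := I) (fun i => p ∣ t + h i)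
  unfold cnt
  omega

lemma cnt_le (h : Fin k → ℕ) (p : ℕ) (I : Finset (Fin k)) (t : ℕ) : cnt h p I t ≤ I.card :=
  card_filter_le _ _

lemma gg_le1 {h : Fin k → ℕ} {p : ℕ} (hp : p.Prime) {I : Finset (Fin k)} (hI : I.Nonempty) (t : ℕ) :
    |gg h p I t| ≤ 1 / ((p : ℝ) - 1) + cnt h p I t := by
  have h2 : (2 : ℝ) ≤ p := by exact_mod_cast hp.two_le
  have h3 : 0 ≤ 1 / ((p : ℝ) - 1) := by apply div_nonneg <;> linarith
  have h4 : 1 / ((p : ℝ) - 1) ≤ 1 := by rw [div_le_one (by linarith)]; linarith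
  rw [abs_gg hp]
  rcases Nat.eq_zero_or_pos (cnt h p I t) with h0 | h0
  · rw [h0, Nat.sub_zero, Nat.cast_zero, add_zero]
    exact pow_le_of_le_one h3 h4 (card_pos.2 hI).ne'
  · have h5 : (1:ℝ) ≤ cnt h p I t := by exact_mod_cast h0
    have h6 : (1 / ((p : ℝ) - 1)) ^ (I.card - cnt h p I t) ≤ 1 := pow_le_one₀ h3 h4
    linarith

/-- the primes at which the shifts are distinct -/
def Good (h : Fin k → ℕ) (p : ℕ) : Prop := ∀ i j, i ≠ j → h i % p ≠ h j % p

lemma cnt_le_one {h : Fin k → ℕ} {p : ℕ} (hg : Good h p) (I : Finset (Fin k)) (t : ℕ) :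
    cnt h p I t ≤ 1 := by
  unfold cnt
  rw [card_le_one]
  intro i hi j hj
  rw [mem_filter] at hi hj
  by_contra hij
  apply hg i j hij
  have h1 : t + h i ≡ t + h j [MOD p] := by
    have a := (Nat.modEq_zero_iff_dvd.2 hi.2)
    have b := (Nat.modEq_zero_iff_dvd.2 hj.2)
    exact a.trans b.symm
  exact Nat.ModEq.add_left_cancel' t h1

lemma gg_le2 {h : Fin k → ℕ} {p : ℕ} (hp : p.Prime) (hg : Good h p) {I : Finset (Fin k)}
    (hI : 2 ≤ I.card) (t : ℕ) :
    |gg h p I t| ≤ (1 / ((p : ℝ) - 1)) ^ 2 + 1 / ((p : ℝ) - 1) * cnt h p I t := by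
  have h2 : (2 : ℝ) ≤ p := by exact_mod_cast hp.two_le
  have h3 : 0 ≤ 1 / ((p : ℝ) - 1) := by apply div_nonneg <;> linarith
  have h4 : 1 / ((p : ℝ) - 1) ≤ 1 := by rw [div_le_one (by linarith)]; linarith
  rw [abs_gg hp]
  have h5 := cnt_le_one hg I t
  rcases Nat.eq_zero_or_pos (cnt h p I t) with h0 | h0
  · rw [h0, Nat.sub_zero, Nat.cast_zero, mul_zero, add_zero]
    exact pow_le_pow_of_le_one h3 h4 hI
  · have h6 : cnt h p I t = 1 := by omega
    rw [h6, Nat.cast_one, mul_one]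
    have h7 : (1 / ((p : ℝ) - 1)) ^ (I.card - 1) ≤ 1 / ((p : ℝ) - 1) :=
      pow_le_of_le_one h3 h4 (by omega)
    nlinarith [sq_nonneg (1 / ((p : ℝ) - 1))]

lemma inv_le {p : ℕ} (hp : p.Prime) : 1 / ((p : ℝ) - 1) ≤ 2 / p := by
  have h2 : (2 : ℝ) ≤ p := by exact_mod_cast hp.two_le
  rw [div_le_div_iff₀ (by linarith) (by linarith)]
  linarith

lemma mm_le1 {h : Fin k → ℕ} {p : ℕ} (hp : p.Prime) {I : Finset (Fin k)} (hI : I.Nonempty) :
    |mm h p I| ≤ (k + 2) / p := by
  have h2 : (2 : ℝ) ≤ p := by exact_mod_cast hp.two_le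
  have hp0 : (0:ℝ) < p := by linarith
  have h3 := inv_le hp
  have hk : (I.card : ℝ) ≤ k := by
    have := card_le_univ I
    rw [Fintype.card_fin] at this
    exact_mod_cast this
  unfold mm
  rw [abs_div, abs_of_pos hp0]
  have h4 : |∑ t ∈ range p, gg h p I t| ≤ p * (1 / ((p : ℝ) - 1)) + k := by
    refine (abs_sum_le_sum_abs _ _).trans ((sum_le_sum fun t _ => gg_le1 hp hI t).trans ?_)
    rw [sum_add_distrib, sum_cnt hp, sum_const, card_range, nsmul_eq_mul]
    linarith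
  rw [div_le_div_iff_of_pos_right hp0]
  refine h4.trans ?_
  have h5 : p * (1 / ((p : ℝ) - 1)) ≤ p * (2 / p) := mul_le_mul_of_nonneg_left h3 hp0.le
  have h6 : (p : ℝ) * (2 / p) = 2 := by field_simp
  linarith

lemma mm_le2 {h : Fin k → ℕ} {p : ℕ} (hp : p.Prime) (hg : Good h p) {I : Finset (Fin k)}
    (hI : 2 ≤ I.card) : |mm h p I| ≤ (2 * k + 4) / p ^ 2 := by
  have h2 : (2 : ℝ) ≤ p := by exact_mod_cast hp.two_le
  have hp0 : (0:ℝ) < p := by linarith
  have h3 := inv_le hp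
  have h30 : 0 ≤ 1 / ((p : ℝ) - 1) := by apply div_nonneg <;> linarith
  have hk : (I.card : ℝ) ≤ k := by
    have := card_le_univ I
    rw [Fintype.card_fin] at this
    exact_mod_cast this
  unfold mm
  rw [abs_div, abs_of_pos hp0]
  have h4 : |∑ t ∈ range p, gg h p I t| ≤ p * (1 / ((p : ℝ) - 1)) ^ 2 + 1 / ((p : ℝ) - 1) * k := by
    refine (abs_sum_le_sum_abs _ _).trans ((sum_le_sum fun t _ => gg_le2 hp hg hI t).trans ?_)
    rw [sum_add_distrib, ← mul_sum, sum_cnt hp, sum_const, card_range, nsmul_eq_mul]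
    have := mul_le_mul_of_nonneg_left hk h30
    linarith
  have h5 : (2 * (k:ℝ) + 4) / p ^ 2 = ((2 * k + 4) / p) / p := by field_simp
  rw [h5, div_le_div_iff_of_pos_right hp0]
  refine h4.trans ?_
  have h6 : (1 / ((p : ℝ) - 1)) ^ 2 ≤ (2 / p) ^ 2 := pow_le_pow_left₀ h30 h3 2
  have h7 : p * (1 / ((p : ℝ) - 1)) ^ 2 ≤ p * (2 / p) ^ 2 := mul_le_mul_of_nonneg_left h6 hp0.le
  have h8 : 1 / ((p : ℝ) - 1) * k ≤ 2 / p * k := mul_le_mul_of_nonneg_right h3 (Nat.cast_nonneg k)
  have h9 : (p : ℝ) * (2 / p) ^ 2 + 2 / p * k = (2 * k + 4) / p := by field_simp; ring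
  linarith

lemma mm_single {h : Fin k → ℕ} {p : ℕ} (hp : p.Prime) (i : Fin k) : mm h p {i} = 0 := by
  unfold mm gg
  have h1 := sum_lf (D := 1) hp (by
    intro h
    exact hp.one_lt.ne' (Nat.dvd_one.mp h)) (h i)
  have h2 : ∑ t ∈ range p, ∏ j ∈ ({i} : Finset (Fin k)), lf p (t + h j) = 0 := by
    rw [← h1]
    refine sum_congr rfl fun t _ => ?_
    rw [prod_singleton, one_mul, add_comm]
  rw [h2, zero_div]

/-- the constant -/
noncomputable def KK (k : ℕ) : ℝ := 2 ^ k * (2 * k + 4)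

lemma KK_pos (k : ℕ) : 0 < KK k := by unfold KK; positivity

lemma ss_le_gen {h : Fin k → ℕ} {p : ℕ} {B : ℝ} (hB : 0 ≤ B)
    (hb : ∀ I : Finset (Fin k), I ≠ ∅ → |mm h p I| ≤ B) : ss h p ≤ 2 ^ k * B := by
  unfold ss
  refine (sum_le_card_nsmul _ _ B fun I hI => hb I (ne_of_mem_erase hI)).trans ?_
  rw [nsmul_eq_mul]
  refine mul_le_mul_of_nonneg_right ?_ hB
  have h1 : (univ.erase (∅ : Finset (Fin k))).card ≤ 2 ^ k := by
    refine (card_le_univ _).trans ?_
    rw [Fintype.card_finset, Fintype.card_fin]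
  exact_mod_cast h1

lemma ss_le1 {h : Fin k → ℕ} {p : ℕ} (hp : p.Prime) : ss h p ≤ KK k / p := by
  have hp0 : (0:ℝ) < p := by exact_mod_cast hp.pos
  refine (ss_le_gen (B := (k + 2) / p) (by positivity) fun I hI =>
    mm_le1 hp (nonempty_iff_ne_empty.2 hI)).trans ?_
  unfold KK
  rw [mul_div_assoc]
  refine mul_le_mul_of_nonneg_left ?_ (by positivity)
  refine div_le_div_of_nonneg_right ?_ hp0.le
  have : (0:ℝ) ≤ k := Nat.cast_nonneg k
  linarith

lemma ss_le2 {h : Fin k → ℕ} {p : ℕ} (hp : p.Prime) (hg : Good h p) : ss h p ≤ KK k / p ^ 2 := by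
  have hp0 : (0:ℝ) < p := by exact_mod_cast hp.pos
  refine (ss_le_gen (B := (2 * k + 4) / p ^ 2) (by positivity) fun I hI => ?_).trans ?_
  · have h1 : 1 ≤ I.card := card_pos.2 (nonempty_iff_ne_empty.2 hI)
    rcases Nat.lt_or_ge 1 I.card with h2 | h2
    · exact mm_le2 hp hg h2
    · obtain ⟨i, rfl⟩ := card_eq_one.1 (le_antisymm h2 h1)
      rw [mm_single hp, abs_zero]
      positivity
  · unfold KK
    rw [mul_div_assoc]

/-- the local density -/
noncomputable def bet (h : Fin k → ℕ) (p : ℕ) : ℝ :=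
  ((1 - 1 / (p : ℝ)) ^ k)⁻¹ * (1 - ((univ.image (fun i : Fin k => h i % p)).card : ℝ) / p)

lemma res_iff {p t c : ℕ} (hp : 0 < p) (ht : t < p) : p ∣ t + c ↔ t = (p - c % p) % p := by
  have hc : c % p < p := Nat.mod_lt _ hp
  have h1 : p ∣ t + c ↔ p ∣ t + c % p := by
    conv_lhs => rw [← Nat.mod_add_div c p, ← add_assoc]
    exact Nat.dvd_add_left (dvd_mul_right _ _)
  rw [h1]
  rcases Nat.eq_zero_or_pos (c % p) with h0 | h0
  · rw [h0, add_zero, Nat.sub_zero, Nat.mod_self]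
    constructor
    · intro h
      exact Nat.eq_zero_of_dvd_of_lt h ht
    · rintro rfl
      exact dvd_zero p
  · rw [Nat.mod_eq_of_lt (by omega : p - c % p < p)]
    constructor
    · rintro ⟨m, hm⟩
      have h2 : m < 2 := by
        by_contra hcon
        have : p * 2 ≤ p * m := Nat.mul_le_mul_left p (by omega)
        omega
      interval_cases m
      · omega
      · omega
    · intro h
      rw [h, Nat.sub_add_cancel hc.le]

lemma card_bad {h : Fin k → ℕ} {p : ℕ} (hp : 0 < p) :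
    ((range p).filter fun t => ∃ i, p ∣ t + h i).card =
      (univ.image (fun i : Fin k => h i % p)).card := by
  have h1 : ((range p).filter fun t => ∃ i, p ∣ t + h i) =
      (univ.image (fun i : Fin k => h i % p)).image (fun c => (p - c) % p) := by
    ext t
    rw [mem_filter, mem_range, image_image, mem_image]
    constructor
    · rintro ⟨ht, i, hi⟩
      exact ⟨i, mem_univ _, ((res_iff hp ht).1 hi).symm⟩
    · rintro ⟨i, _, hi⟩
      have ht : t < p := by
        rw [← hi]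
        exact Nat.mod_lt _ hp
      exact ⟨ht, i, (res_iff hp ht).2 hi.symm⟩
  rw [h1, card_image_of_injOn]
  intro a ha b hb hab
  have ha' : a < p := by
    rw [mem_coe, mem_image] at ha
    obtain ⟨i, _, rfl⟩ := ha
    exact Nat.mod_lt _ hp
  have hb' : b < p := by
    rw [mem_coe, mem_image] at hb
    obtain ⟨i, _, rfl⟩ := hb
    exact Nat.mod_lt _ hp
  simp only at hab
  have key : ∀ c, c < p → (p - c) % p = if c = 0 then 0 else p - c := by
    intro c hc
    split_ifs with h0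
    · rw [h0, Nat.sub_zero, Nat.mod_self]
    · exact Nat.mod_eq_of_lt (by omega)
  rw [key a ha', key b hb'] at hab
  split_ifs at hab <;> omega

lemma sum_mm {h : Fin k → ℕ} {p : ℕ} (hp : p.Prime) : ∑ I : Finset (Fin k), mm h p I = bet h p := by
  have h2 : (2 : ℝ) ≤ p := by exact_mod_cast hp.two_le
  have hp0 : (p : ℝ) ≠ 0 := by linarith
  have hp1 : (p : ℝ) - 1 ≠ 0 := by linarith
  unfold mm
  rw [← sum_div, sum_comm]
  have h3 : ∀ t ∈ range p, ∑ I : Finset (Fin k), gg h p I t =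
      if ∃ i, p ∣ t + h i then 0 else ((p : ℝ) / (p - 1)) ^ k := by
    intro t _
    have h4 : ∑ I : Finset (Fin k), gg h p I t = ∏ i : Fin k, (1 + lf p (t + h i)) := by
      rw [prod_one_add, powerset_univ]
      rfl
    rw [h4]
    split_ifs with h5
    · obtain ⟨i, hi⟩ := h5
      refine prod_eq_zero (mem_univ i) ?_
      unfold lf
      rw [if_pos hi]
      norm_num
    · push Not at h5
      have h6 : ∀ i ∈ (univ : Finset (Fin k)), 1 + lf p (t + h i) = (p : ℝ) / (p - 1) := by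
        intro i _
        unfold lf
        rw [if_neg (h5 i)]
        field_simp
        ring
      rw [prod_congr rfl h6, prod_const, card_univ, Fintype.card_fin]
  rw [sum_congr rfl h3, sum_ite, sum_const_zero, zero_add, sum_const, nsmul_eq_mul]
  have h7 := card_filter_add_card_filter_not (s := range p) (fun t => ∃ i, p ∣ t + h i)
  rw [card_range, card_bad hp.pos] at h7
  have h8 : (((range p).filter fun t => ¬ ∃ i, p ∣ t + h i).card : ℝ) =
      p - (univ.image (fun i : Fin k => h i % p)).card := by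
    rw [eq_sub_iff_add_eq]
    have : (((range p).filter fun t => ¬ ∃ i, p ∣ t + h i).card +
      (univ.image (fun i : Fin k => h i % p)).card : ℕ) = p := by omega
    exact_mod_cast this
  rw [h8]
  unfold bet
  have h9 : (1 - 1 / (p : ℝ)) = ((p : ℝ) / (p - 1))⁻¹ := by
    field_simp
  rw [h9, inv_pow, inv_inv]
  field_simp

end Pool.Agent.P8H14.SS
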